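import Pool.Agent.Lib.MP_acafa7_al.MS.Iface2

/-! Module LevP: a path of near functions gives a path in `Y_K`. -/

namespace MSG.H69

open Classical

theorem dist_map {V : Type} {X : Cx V} {a : Equiv.Perm V} (h : FreeAut X a)
    (hc : X.G.Connected) (z y : V) : X.G.dist (a z) (a y) ≤ X.G.dist z y := by
  obtain ⟨p, hp⟩ := hc.exists_walk_length_eq_dist z y
  let φ : X.G →g X.G := ⟨a, fun {u v} huv => (h.adj u v).2 huv⟩
  have h1 := SimpleGraph.dist_le (p.map φ)
  rw [SimpleGraph.Walk.length_map, hp] at h1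
  exact h1

theorem cy_of_rt {V : Type} {X : Cx V} {a : Equiv.Perm V} {K : ℕ} {x y : V}
    (h : Relation.ReflTransGen (fun u v => X.G.Adj u v ∧ X.G.dist u (a u) ≤ K ∧
      X.G.dist v (a v) ≤ K) x y) (hy : X.G.dist y (a y) ≤ K) : CY X a K x y := by
  induction h using Relation.ReflTransGen.head_induction_on with
  | refl =>
    refine ⟨[y], ⟨by simp, by simp, by simp⟩, ?_⟩
    intro z hz
    rw [List.mem_singleton] at hz
    rw [hz]; exact hy
  | @head u v huv _ ih =>
    obtain ⟨l, hl, hK⟩ := ih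
    have hex : ∃ t, l = v :: t := by
      have h1 := hl.first
      cases l with
      | nil => simp at h1
      | cons b t =>
        simp only [List.head?_cons, Option.some.injEq] at h1
        exact ⟨t, by rw [h1]⟩
    obtain ⟨t, rfl⟩ := hex
    refine ⟨u :: v :: t, ⟨?_, by simp, ?_⟩, ?_⟩
    · exact List.isChain_cons_cons.2 ⟨huv.1, hl.chain⟩
    · rw [List.getLast?_cons_cons]; exact hl.last
    · intro z hz
      rw [List.mem_cons] at hz
      rcases hz with rfl | hz
      · exact huv.2.1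
      · exact hK z hz

theorem rt_of_walk {V : Type} {G : SimpleGraph V} {Q : V → Prop} {x y : V} (p : G.Walk x y)
    (h : ∀ z ∈ p.support, Q z) :
    Relation.ReflTransGen (fun u v => G.Adj u v ∧ Q u ∧ Q v) x y := by
  induction p with
  | nil => exact Relation.ReflTransGen.refl
  | cons hadj p ih =>
    rename_i u v w
    refine Relation.ReflTransGen.head ⟨hadj, h _ (by simp), h _ ?_⟩ (ih ?_)
    · rw [SimpleGraph.Walk.support_cons]
      exact List.mem_cons_of_mem _ p.start_mem_support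
    · intro z hz
      apply h
      rw [SimpleGraph.Walk.support_cons]
      exact List.mem_cons_of_mem _ hz

theorem levp : LevPStatement := by
  intro V X a C K K' H l e x y m hl hm hx hy hnear hlip hsh
  have hc := H.conn
  have hC := H.C0
  have hK := H.K0
  have hK' := H.K'
  have hCK : 0 ≤ C * K := by positivity
  -- near vertices are moved by at most `C K + 2`
  have hmove : ∀ s w, 0 ≤ s → s ≤ l → (∀ z, |e s z - (X.G.dist w z : ℝ)| ≤ 1) →
      (X.G.dist w (a w) : ℝ) ≤ C * K + 2 := by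
    intro s w h0 h1 hw
    have key : ∀ u : V, sh a m (e s) w = e s u → (X.G.dist w u : ℝ) ≤ C * K + 2 := by
      intro u hu
      have h2 := hsh s h0 h1 w
      rw [hu] at h2
      have h3 := hw w
      have h4 := hw u
      rw [SimpleGraph.dist_self] at h3
      rw [abs_le] at h2 h3 h4
      push_cast at h3
      linarith [h2.1, h2.2, h3.1, h3.2, h4.1, h4.2]
    rcases hm with rfl | rfl
    · have h2 := key (a⁻¹ w) (by simp [sh])
      have h3 := dist_map H.aut hc (a⁻¹ w) w
      rw [show a (a⁻¹ w) = w from by simp] at h3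
      rw [SimpleGraph.dist_comm] at h2
      have h4 : (X.G.dist w (a w) : ℝ) ≤ (X.G.dist (a⁻¹ w) w : ℝ) := by exact_mod_cast h3
      linarith
    · exact key (a w) (by simp [sh])
  -- consecutive near vertices
  have hstep : ∀ s s' w w', 0 ≤ s → s ≤ l → 0 ≤ s' → s' ≤ l → C * |s - s'| ≤ 1 →
      (∀ z, |e s z - (X.G.dist w z : ℝ)| ≤ 1) → (∀ z, |e s' z - (X.G.dist w' z : ℝ)| ≤ 1) →
      Relation.ReflTransGen (fun u v => X.G.Adj u v ∧ X.G.dist u (a u) ≤ K' ∧
        X.G.dist v (a v) ≤ K') w w' := by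
    intro s s' w w' h0 h1 h0' h1' hs hw hw'
    have hd : (X.G.dist w w' : ℝ) ≤ 3 := by
      have h2 := hw w
      have h3 := hw' w
      have h4 := hlip s s' h0 h1 h0' h1' w
      rw [SimpleGraph.dist_self] at h2
      rw [SimpleGraph.dist_comm] at h3
      rw [abs_le] at h2 h3
      have h5 := abs_le.1 (h4.trans hs)
      push_cast at h2
      linarith [h2.1, h2.2, h3.1, h3.2, h5.1, h5.2]
    obtain ⟨p, hp⟩ := hc.exists_walk_length_eq_dist w w'
    refine rt_of_walk (Q := fun u => X.G.dist u (a u) ≤ K') p ?_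
    intro z hz
    have h6 : X.G.dist w z ≤ 3 := by
      have h7 := SimpleGraph.dist_le (p.takeUntil z hz)
      have h8 := SimpleGraph.Walk.length_takeUntil_le_length p hz
      have h9 : X.G.dist w w' ≤ 3 := by exact_mod_cast hd
      omega
    have h10 := dist_map H.aut hc w z
    have h11 := hmove s w h0 h1 hw
    have h12 : X.G.dist z (a z) ≤ X.G.dist z w + X.G.dist w (a w) + X.G.dist (a w) (a z) :=
      (hc.dist_triangle (v := a w)).trans (Nat.add_le_add_right hc.dist_triangle _)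
    have h13 : (X.G.dist z (a z) : ℝ) ≤ X.G.dist z w + X.G.dist w (a w) + X.G.dist (a w) (a z) := by
      exact_mod_cast h12
    have h14 : (X.G.dist z w : ℝ) ≤ 3 := by
      rw [SimpleGraph.dist_comm]; exact_mod_cast h6
    have h15 : (X.G.dist (a w) (a z) : ℝ) ≤ 3 := by
      exact_mod_cast h10.trans h6
    have h16 : (X.G.dist z (a z) : ℝ) ≤ (K' : ℝ) := by linarith
    exact_mod_cast h16
  obtain ⟨n, hn⟩ : ∃ n : ℕ, C * l ≤ n := exists_nat_ge (C * l)
  have hn1 : (0 : ℝ) < (n : ℝ) + 1 := by positivity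
  have hsi : ∀ i : ℕ, i ≤ n + 1 → 0 ≤ (i : ℝ) * l / (n + 1) ∧ (i : ℝ) * l / (n + 1) ≤ l := by
    intro i hi
    constructor
    · positivity
    · rw [div_le_iff₀ hn1]
      have : (i : ℝ) ≤ n + 1 := by exact_mod_cast hi
      nlinarith
  have hx0 : ∀ z, |e 0 z - (X.G.dist x z : ℝ)| ≤ 1 := by
    intro z; rw [hx]; simp [kap]
  have hyl : ∀ z, |e l z - (X.G.dist y z : ℝ)| ≤ 1 := by
    intro z; rw [hy]; simp [kap]
  have main : ∀ i : ℕ, i ≤ n + 1 → ∀ w, (∀ z, |e ((i : ℝ) * l / (n + 1)) z -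
      (X.G.dist w z : ℝ)| ≤ 1) →
      Relation.ReflTransGen (fun u v => X.G.Adj u v ∧ X.G.dist u (a u) ≤ K' ∧
        X.G.dist v (a v) ≤ K') x w := by
    intro i
    induction i with
    | zero =>
      intro _ w hw
      have h0 : ((0 : ℕ) : ℝ) * l / (n + 1) = 0 := by simp
      rw [h0] at hw
      exact hstep 0 0 x w le_rfl hl le_rfl hl (by simp) hx0 hw
    | succ i ih =>
      intro hi w hw
      have hi' : i ≤ n + 1 := by omega
      obtain ⟨h0, h1⟩ := hsi i hi'
      obtain ⟨h0', h1'⟩ := hsi (i + 1) hi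
      obtain ⟨w', hw'⟩ := hnear _ h0 h1
      refine (ih hi' w' hw').trans (hstep _ _ w' w h0 h1 h0' h1' ?_ hw' hw)
      have h2 : (i : ℝ) * l / (n + 1) - ((i + 1 : ℕ) : ℝ) * l / (n + 1) = -(l / (n + 1)) := by
        push_cast; ring
      rw [h2, abs_neg, abs_of_nonneg (by positivity), ← mul_div_assoc, div_le_one hn1]
      linarith
  have hfin : ((n + 1 : ℕ) : ℝ) * l / (n + 1) = l := by
    push_cast
    field_simp
  have h1 := main (n + 1) le_rfl y (by rw [hfin]; exact hyl)
  refine cy_of_rt h1 ?_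
  have h2 := hmove l y hl le_rfl hyl
  have h3 : (X.G.dist y (a y) : ℝ) ≤ (K' : ℝ) := by linarith
  exact_mod_cast h3

end MSG.H69
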