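import Pool.Agent.Lib.MP_acafa7_al.MS.Iface2

/-! Module TriB: constants of a cocompact complex. -/

namespace MSG.H69

open Classical

theorem trib (h_TriA : TriAStatement) : TriBStatement := by
  intro V X Γ _ _ hX hG
  have hc := hX.conn
  have hm := hX.metric
  obtain ⟨s, hs⟩ := hG.cocompact
  -- finitely many lengths
  have hfin : {r : ℝ | ∃ x y, X.G.Adj x y ∧ X.len x y = r}.Finite := by
    have h1 : (⋃ x ∈ (s : Set V), (fun y => X.len x y) '' {y | X.G.Adj x y}).Finite :=
      Set.Finite.biUnion s.finite_toSet (fun x _ => (hG.locfin x).image _)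
    apply h1.subset
    rintro r ⟨x, y, hxy, rfl⟩
    obtain ⟨g, x0, hx0, rfl⟩ := hs x
    refine Set.mem_biUnion (Finset.mem_coe.2 hx0) ⟨g⁻¹ • y, ?_, ?_⟩
    · have := (hG.adj g⁻¹ (g • x0) y).2 hxy
      rwa [inv_smul_smul] at this
    · have := hG.len g⁻¹ (g • x0) y
      rwa [inv_smul_smul] at this
  set L : Set ℝ := {r : ℝ | ∃ x y, X.G.Adj x y ∧ X.len x y = r} with hL
  obtain ⟨Λ, hΛ⟩ := hfin.bddAbove
  obtain ⟨C1, hC1⟩ := (hfin.image (fun r : ℝ => 1 / r)).bddAbove
  choose c0 hc0 hc1 using h_TriA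
  let c : ℝ × ℝ × ℝ → ℝ := fun t => if h : Tr t.1 t.2.1 t.2.2 then c0 t.1 t.2.1 t.2.2 h else 0
  obtain ⟨C2, hC2⟩ := ((hfin.prod (hfin.prod hfin)).image c).bddAbove
  have hmem : ∀ x y, X.G.Adj x y → X.len x y ∈ L := fun x y h => ⟨x, y, h, rfl⟩
  refine ⟨max 1 (max C1 C2), Λ, ?_, ?_, ?_, ?_⟩
  · exact lt_of_lt_of_le one_pos (le_max_left _ _)
  · intro x y hxy
    exact hΛ (hmem x y hxy)
  · intro x y hxy t t' _ _ _ _ z
    have hp := hm.pos x y hxy
    have hC : 1 / X.len x y ≤ max 1 (max C1 C2) :=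
      (hC1 ⟨_, hmem x y hxy, rfl⟩).trans ((le_max_left _ _).trans (le_max_right _ _))
    have a1 : X.G.dist x y = 1 := SimpleGraph.dist_eq_one_iff_adj.2 hxy
    have a2 : X.G.dist y z ≤ X.G.dist y x + X.G.dist x z := hc.dist_triangle
    have a3 : X.G.dist x z ≤ X.G.dist x y + X.G.dist y z := hc.dist_triangle
    rw [SimpleGraph.dist_comm (u := y) (v := x), a1] at a2
    rw [a1] at a3
    have b2 : (X.G.dist y z : ℝ) ≤ 1 + X.G.dist x z := by exact_mod_cast a2
    have b3 : (X.G.dist x z : ℝ) ≤ 1 + X.G.dist y z := by exact_mod_cast a3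
    have hd : |(X.G.dist y z : ℝ) - X.G.dist x z| ≤ 1 := by
      rw [abs_le]; constructor <;> linarith
    have e : eE X x y t z - eE X x y t' z =
        1 / X.len x y * (t - t') * ((X.G.dist y z : ℝ) - X.G.dist x z) := by
      simp only [eE]; ring
    rw [e, abs_mul, abs_mul, abs_of_pos (by positivity : 0 < 1 / X.len x y)]
    calc 1 / X.len x y * |t - t'| * |(X.G.dist y z : ℝ) - X.G.dist x z|
        ≤ 1 / X.len x y * |t - t'| * 1 := mul_le_mul_of_nonneg_left hd (by positivity)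
      _ ≤ max 1 (max C1 C2) * |t - t'| := by
          rw [mul_one]; exact mul_le_mul_of_nonneg_right hC (abs_nonneg _)
  · intro x y z hxy hyz hzx
    have hT : Tr (X.len x y) (X.len y z) (X.len z x) := by
      refine ⟨hm.pos _ _ hxy, hm.pos _ _ hyz, hm.pos _ _ hzx, ?_, ?_, ?_⟩
      · have := hm.tri x z y hzx.symm hyz.symm hxy
        rw [hm.symm x z, hm.symm z y] at this
        linarith
      · have := hm.tri y x z hxy.symm hzx.symm hyz
        rw [hm.symm y x, hm.symm x z] at this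
        linarith
      · have := hm.tri z y x hyz.symm hxy.symm hzx
        rw [hm.symm z y, hm.symm y x] at this
        linarith
    have hC : c (X.len x y, X.len y z, X.len z x) ≤ max 1 (max C1 C2) :=
      (hC2 ⟨(X.len x y, X.len y z, X.len z x),
        ⟨hmem _ _ hxy, hmem _ _ hyz, hmem _ _ hzx⟩, rfl⟩).trans
        ((le_max_right _ _).trans (le_max_right _ _))
    have hc' : c (X.len x y, X.len y z, X.len z x) =
        c0 (X.len x y) (X.len y z) (X.len z x) hT := by
      simp only [c]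
      rw [dif_pos hT]
    rw [hc'] at hC
    exact hc1 _ _ _ hT _ hC V X x y z hm hc hxy hyz hzx rfl rfl rfl

end MSG.H69
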