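import Pool.Agent.Lib.MP_acafa7_al.MS.Iface2

/-! Module TriA: linear interpolation on one Euclidean triangle. -/

namespace MSG.H69

open Classical

/-- plane coordinates of the third vertex -/
theorem exists_apex {l1 l2 l3 : ℝ} (h : Tr l1 l2 l3) : ∃ p q : ℝ, 0 < q ∧
    p ^ 2 + q ^ 2 = l3 ^ 2 ∧ (p - l1) ^ 2 + q ^ 2 = l2 ^ 2 := by
  obtain ⟨h1, h2, h3, hx, hy, hz⟩ := h
  set p : ℝ := (l3 ^ 2 + l1 ^ 2 - l2 ^ 2) / (2 * l1) with hp
  have hp1 : 2 * l1 * p = l3 ^ 2 + l1 ^ 2 - l2 ^ 2 := by
    rw [hp]; field_simp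
  have hpos : 0 < l3 ^ 2 - p ^ 2 := by
    have e1 : 2 * l1 * (l3 - p) = (l2 - l3 + l1) * (l2 + l3 - l1) := by
      linear_combination -hp1
    have e2 : 2 * l1 * (l3 + p) = (l3 + l1 - l2) * (l3 + l1 + l2) := by
      linear_combination hp1
    have f1 : 0 < l3 - p := by
      have : 0 < 2 * l1 * (l3 - p) := by
        rw [e1]; exact mul_pos (by linarith) (by linarith)
      exact pos_of_mul_pos_of_pos_left' this h1
    have f2 : 0 < l3 + p := by
      have : 0 < 2 * l1 * (l3 + p) := by
        rw [e2]; exact mul_pos (by linarith) (by linarith)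
      exact pos_of_mul_pos_of_pos_left' this h1
    nlinarith [mul_pos f1 f2]
  refine ⟨p, Real.sqrt (l3 ^ 2 - p ^ 2), Real.sqrt_pos.2 hpos, ?_, ?_⟩
  · rw [Real.sq_sqrt hpos.le]; ring
  · rw [Real.sq_sqrt hpos.le]; linear_combination -hp1
where
  pos_of_mul_pos_of_pos_left' {x l : ℝ} (h : 0 < 2 * l * x) (hl : 0 < l) : 0 < x := by
    by_contra hx
    push Not at hx
    nlinarith [mul_nonneg hl.le (neg_nonneg.2 hx)]

theorem tria : TriAStatement := by
  intro l1 l2 l3 h
  obtain ⟨p, q, hq, hp1, hp2⟩ := exists_apex h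
  have h1 := h.px
  have h2 := h.py
  have h3 := h.pz
  refine ⟨1 / q + (1 + |p| / q) / l1, by positivity, ?_⟩
  intro C hC V X x y z hX hc hxy hyz hzx e1 e2 e3
  -- differences of the distance functions
  have hdiff : ∀ u v : V, X.G.Adj u v → ∀ t : V,
      |(X.G.dist v t : ℝ) - (X.G.dist u t : ℝ)| ≤ 1 := by
    intro u v huv t
    have a1 : X.G.dist u v = 1 := SimpleGraph.dist_eq_one_iff_adj.2 huv
    have a2 : X.G.dist v t ≤ X.G.dist v u + X.G.dist u t := hc.dist_triangle
    have a3 : X.G.dist u t ≤ X.G.dist u v + X.G.dist v t := hc.dist_triangle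
    rw [SimpleGraph.dist_comm (u := v) (v := u), a1] at a2
    rw [a1] at a3
    have b2 : (X.G.dist v t : ℝ) ≤ 1 + X.G.dist u t := by exact_mod_cast a2
    have b3 : (X.G.dist u t : ℝ) ≤ 1 + X.G.dist v t := by exact_mod_cast a3
    rw [abs_le]
    constructor <;> linarith
  let lB : ℂ → ℝ := fun w => (w.re - p * w.im / q) / l1
  let lZ : ℂ → ℝ := fun w => w.im / q
  let F : ℂ → V → ℝ := fun w t => (1 - lB w - lZ w) * (X.G.dist x t : ℝ) +
    lB w * (X.G.dist y t : ℝ) + lZ w * (X.G.dist z t : ℝ)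
  have hF : ∀ w t, F w t = (X.G.dist x t : ℝ) + lB w * ((X.G.dist y t : ℝ) - X.G.dist x t) +
      lZ w * ((X.G.dist z t : ℝ) - X.G.dist x t) := by
    intro w t; simp only [F]; ring
  refine ⟨0, (l1 : ℂ), ⟨p, q⟩, F, ?_, ?_, ?_, ?_, ?_, ?_, ?_, ?_⟩
  · rw [Complex.dist_eq_re_im]
    simp only [Complex.zero_re, Complex.zero_im, Complex.ofReal_re, Complex.ofReal_im]
    rw [show (0 - l1) ^ 2 + (0 - 0 : ℝ) ^ 2 = l1 ^ 2 by ring, Real.sqrt_sq h1.le]
  · rw [Complex.dist_eq_re_im]
    simp only [Complex.ofReal_re, Complex.ofReal_im]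
    rw [show (l1 - p) ^ 2 + (0 - q) ^ 2 = l2 ^ 2 by rw [← hp2]; ring, Real.sqrt_sq h2.le]
  · rw [Complex.dist_eq_re_im]
    simp only [Complex.zero_re, Complex.zero_im]
    rw [show (p - 0) ^ 2 + (q - 0) ^ 2 = l3 ^ 2 by rw [← hp1]; ring, Real.sqrt_sq h3.le]
  · intro w _ w' _ t
    have d1 : |w.re - w'.re| ≤ dist w w' := by
      rw [Complex.dist_eq, ← Complex.sub_re]; exact Complex.abs_re_le_norm _
    have d2 : |w.im - w'.im| ≤ dist w w' := by
      rw [Complex.dist_eq, ← Complex.sub_im]; exact Complex.abs_im_le_norm _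
    have dB : |lB w - lB w'| ≤ (1 + |p| / q) / l1 * dist w w' := by
      have e : lB w - lB w' = ((w.re - w'.re) - p / q * (w.im - w'.im)) / l1 := by
        simp only [lB]; ring
      have e' : (1 + |p| / q) / l1 * dist w w' = (1 + |p| / q) * dist w w' / l1 := by ring
      rw [e, e', abs_div, abs_of_pos h1]
      apply div_le_div_of_nonneg_right _ h1.le
      calc |(w.re - w'.re) - p / q * (w.im - w'.im)|
          ≤ |w.re - w'.re| + |p / q * (w.im - w'.im)| := abs_sub _ _
        _ = |w.re - w'.re| + |p| / q * |w.im - w'.im| := by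
            rw [abs_mul, abs_div, abs_of_pos hq]
        _ ≤ dist w w' + |p| / q * dist w w' :=
            add_le_add d1 (mul_le_mul_of_nonneg_left d2 (by positivity))
        _ = (1 + |p| / q) * dist w w' := by ring
    have dZ : |lZ w - lZ w'| ≤ 1 / q * dist w w' := by
      have e : lZ w - lZ w' = 1 / q * (w.im - w'.im) := by
        simp only [lZ]; ring
      rw [e, abs_mul, abs_of_pos (by positivity : 0 < 1 / q)]
      exact mul_le_mul_of_nonneg_left d2 (by positivity)
    have e : F w t - F w' t = (lB w - lB w') * ((X.G.dist y t : ℝ) - X.G.dist x t) +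
        (lZ w - lZ w') * ((X.G.dist z t : ℝ) - X.G.dist x t) := by
      rw [hF, hF]; ring
    rw [e]
    calc |(lB w - lB w') * ((X.G.dist y t : ℝ) - X.G.dist x t) +
        (lZ w - lZ w') * ((X.G.dist z t : ℝ) - X.G.dist x t)|
        ≤ |lB w - lB w'| * |(X.G.dist y t : ℝ) - X.G.dist x t| +
          |lZ w - lZ w'| * |(X.G.dist z t : ℝ) - X.G.dist x t| := by
          rw [← abs_mul, ← abs_mul]; exact abs_add_le _ _
      _ ≤ (1 + |p| / q) / l1 * dist w w' * 1 + 1 / q * dist w w' * 1 := by
          apply add_le_add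
          · exact mul_le_mul dB (hdiff x y hxy t) (abs_nonneg _) (by positivity)
          · exact mul_le_mul dZ (hdiff x z hzx.symm t) (abs_nonneg _) (by positivity)
      _ = (1 / q + (1 + |p| / q) / l1) * dist w w' := by ring
      _ ≤ C * dist w w' := mul_le_mul_of_nonneg_right hC dist_nonneg
  · intro w hw
    have hsub : convexHull ℝ {(0 : ℂ), (l1 : ℂ), ⟨p, q⟩} ⊆
        {w : ℂ | 0 ≤ lB w ∧ 0 ≤ lZ w ∧ lB w + lZ w ≤ 1} := by
      apply convexHull_min
      · intro u hu
        simp only [Set.mem_insert_iff, Set.mem_singleton_iff] at hu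
        rcases hu with rfl | rfl | rfl
        · simp [lB, lZ]
        · simp only [lB, lZ, Set.mem_ofPred_eq, Complex.ofReal_re, Complex.ofReal_im]
          rw [show (l1 - p * 0 / q) / l1 = 1 by field_simp; ring]
          simp
        · simp only [lB, lZ, Set.mem_ofPred_eq]
          rw [show (p - p * q / q) / l1 = 0 by field_simp; ring, div_self hq.ne']
          norm_num
      · intro u hu v hv s t hs ht hst
        obtain ⟨u1, u2, u3⟩ := hu
        obtain ⟨v1, v2, v3⟩ := hv
        have eB : lB (s • u + t • v) = s * lB u + t * lB v := by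
          simp only [lB, Complex.add_re, Complex.add_im, Complex.real_smul, Complex.mul_re,
            Complex.mul_im, Complex.ofReal_re, Complex.ofReal_im]
          ring
        have eZ : lZ (s • u + t • v) = s * lZ u + t * lZ v := by
          simp only [lZ, Complex.add_im, Complex.real_smul,
            Complex.mul_im, Complex.ofReal_re, Complex.ofReal_im]
          ring
        refine ⟨?_, ?_, ?_⟩
        · rw [eB]; positivity
        · rw [eZ]; positivity
        · rw [eB, eZ]; nlinarith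
    obtain ⟨w1, w2, w3⟩ := hsub hw
    refine ⟨x, ?_⟩
    intro t
    rw [hF]
    have a1 := abs_le.1 (hdiff x y hxy t)
    have a2 := abs_le.1 (hdiff x z hzx.symm t)
    rw [abs_le]
    constructor <;> nlinarith [a1.1, a1.2, a2.1, a2.2]
  · intro s _ _
    funext t
    have hdist : dist (0 : ℂ) (l1 : ℂ) = l1 := by
      rw [Complex.dist_eq_re_im]
      simp only [Complex.zero_re, Complex.zero_im, Complex.ofReal_re, Complex.ofReal_im]
      rw [show (0 - l1) ^ 2 + (0 - 0 : ℝ) ^ 2 = l1 ^ 2 by ring, Real.sqrt_sq h1.le]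
    have hB : lB (seg 0 (l1 : ℂ) s) = s / l1 := by
      simp only [lB, seg, hdist]
      simp only [sub_zero, zero_add, Complex.mul_re, Complex.mul_im, Complex.ofReal_re,
        Complex.ofReal_im]
      field_simp
      ring
    have hZ : lZ (seg 0 (l1 : ℂ) s) = 0 := by
      simp [lZ, seg]
    rw [hF, hB, hZ]
    simp only [eE, e1]
    ring
  · intro s _ _
    funext t
    have hdist : dist (l1 : ℂ) (⟨p, q⟩ : ℂ) = l2 := by
      rw [Complex.dist_eq_re_im]
      simp only [Complex.ofReal_re, Complex.ofReal_im]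
      rw [show (l1 - p) ^ 2 + (0 - q) ^ 2 = l2 ^ 2 by rw [← hp2]; ring, Real.sqrt_sq h2.le]
    have hB : lB (seg (l1 : ℂ) ⟨p, q⟩ s) = 1 - s / l2 := by
      simp only [lB, seg, hdist]
      simp only [Complex.add_re, Complex.add_im, Complex.sub_re, Complex.sub_im, Complex.mul_re,
        Complex.mul_im, Complex.ofReal_re, Complex.ofReal_im]
      field_simp
      ring
    have hZ : lZ (seg (l1 : ℂ) ⟨p, q⟩ s) = s / l2 := by
      simp only [lZ, seg, hdist]
      simp only [Complex.add_im, Complex.sub_re, Complex.sub_im,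
        Complex.mul_im, Complex.ofReal_re, Complex.ofReal_im]
      field_simp
      ring
    rw [hF, hB, hZ]
    simp only [eE, e2]
    ring
  · intro s _ _
    funext t
    have hdist : dist (⟨p, q⟩ : ℂ) (0 : ℂ) = l3 := by
      rw [Complex.dist_eq_re_im]
      simp only [Complex.zero_re, Complex.zero_im]
      rw [show (p - 0) ^ 2 + (q - 0) ^ 2 = l3 ^ 2 by rw [← hp1]; ring, Real.sqrt_sq h3.le]
    have hB : lB (seg ⟨p, q⟩ 0 s) = 0 := by
      simp only [lB, seg, hdist]
      simp only [Complex.add_re, Complex.add_im, Complex.sub_re, Complex.sub_im, Complex.mul_re,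
        Complex.mul_im, Complex.ofReal_re, Complex.ofReal_im, Complex.zero_re, Complex.zero_im]
      field_simp
      ring
    have hZ : lZ (seg ⟨p, q⟩ 0 s) = 1 - s / l3 := by
      simp only [lZ, seg, hdist]
      simp only [Complex.add_im, Complex.sub_re, Complex.sub_im,
        Complex.mul_im, Complex.ofReal_re, Complex.ofReal_im, Complex.zero_re, Complex.zero_im]
      field_simp
      ring
    rw [hF, hB, hZ]
    simp only [eE, e3]
    ring

end MSG.H69
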